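import Mathlib
import Pool.Agent.W606.SN.Stm

/-!
The homological Hex lemma.
-/

set_option autoImplicit false

namespace Pool.Agent.W112.SN

open Pool.Agent.W606.SN

lemma zcases (x : ZMod 2) : x = 0 ∨ x = 1 := by revert x; decide

lemma add_self' (x : ZMod 2) : x + x = 0 := CharTwo.add_self_eq_zero x

lemma eq_of_add {x y : ZMod 2} (h : x + y = 0) : x = y := by
  revert x y; decide

/-- the pointwise identity -/
lemma key2 (a1 a1' a2 a2' p p' q q' g g' h h' : ZMod 2)
    (h11 : a1 * a1' * (p + p') = 0) (h22 : a2 * a2' * (q + q') = 0)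
    (h12 : a1 * a2 * (p + q) = 0) (h12' : a1' * a2' * (p' + q') = 0)
    (h13 : a1 * a2' * (p + q') = 0) (h13' : a1' * a2 * (p' + q) = 0)
    (k11 : (1 + a1) * (1 + a1') * (g + g') = 0) (k22 : (1 + a2) * (1 + a2') * (h + h') = 0)
    (k12 : (1 + a1) * (1 + a2) * (g + h) = 0) (k12' : (1 + a1') * (1 + a2') * (g' + h') = 0)
    (k13 : (1 + a1) * (1 + a2') * (g + h') = 0) (k13' : (1 + a1') * (1 + a2) * (g' + h) = 0) :
    ((1 + a1) * g * (a1' * p') + (1 + a2) * h * (a2' * q')) +
    ((1 + a1') * g' * (a1 * p) + (1 + a2') * h' * (a2 * q)) +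
    (a1 * (1 + a2) * h * p + a2 * (1 + a1) * g * q) +
    (a1' * (1 + a2') * h' * p' + a2' * (1 + a1') * g' * q') = 0 := by
  have z : ∀ x : ZMod 2, x = 0 ∨ x = 1 := by decide
  have t : (1 : ZMod 2) + 1 = 0 := by decide
  have dd : ∀ x y : ZMod 2, x + y = 0 → x = y := by decide
  have xx : ∀ x : ZMod 2, x + x = 0 := by decide
  rcases z a1 with rfl | rfl <;> rcases z a1' with rfl | rfl <;> rcases z a2 with rfl | rfl <;>
    rcases z a2' with rfl | rfl <;>
    simp only [t, mul_zero, zero_mul, add_zero, zero_add, mul_one, one_mul] at h11 h22 h12 h12' h13 h13' k11 k22 k12 k12' k13 k13' ⊢ <;>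
    grind

/-- sums over ordered pairs with the swap -/
lemma sum_swap_zero {T : Type} [Fintype T] (F : T → T → ZMod 2)
    (hd : ∀ v, F v v = 0) (hs : ∀ v v', F v v' + F v' v = 0) : ∑ v, ∑ v', F v v' = 0 := by
  classical
  rw [← Fintype.sum_prod_type']
  refine Finset.sum_involution (fun x _ => (x.2, x.1)) ?_ ?_ ?_ ?_
  · intro x _
    exact hs x.1 x.2
  · intro x _ hx heq
    apply hx
    have : x.1 = x.2 := (congrArg Prod.snd heq)
    rw [← this]
    exact hd _
  · intro x _; exact Finset.mem_univ _
  · intro x _; rfl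

section alg

variable {T : Type} [Fintype T] (e : T → T → ZMod 2) (δ : T → ZMod 2)

/-- the algebraic core of the second case -/
lemma comp_alg (he : ∀ v v', e v v' = e v' v) (he0 : ∀ v, e v v = 0)
    (a1 a2 g1 g2 : T → ZMod 2) (p1 p2 : T → T → ZMod 2)
    (s1 : ∀ v, a1 v * ∑ v', e v v' * p1 v v' = a1 v * δ v)
    (s2 : ∀ v, a2 v * ∑ v', e v v' * p2 v v' = a2 v * δ v)
    (h11 : ∀ v v', e v v' * (a1 v * a1 v' * (p1 v v' + p1 v' v)) = 0)
    (h22 : ∀ v v', e v v' * (a2 v * a2 v' * (p2 v v' + p2 v' v)) = 0)
    (h12 : ∀ v v', e v v' * (a1 v * a2 v * (p1 v v' + p2 v v')) = 0)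
    (h13 : ∀ v v', e v v' * (a1 v * a2 v' * (p1 v v' + p2 v' v)) = 0)
    (k11 : ∀ v v', e v v' * ((1 + a1 v) * (1 + a1 v') * (g1 v + g1 v')) = 0)
    (k22 : ∀ v v', e v v' * ((1 + a2 v) * (1 + a2 v') * (g2 v + g2 v')) = 0)
    (k12 : ∀ v, (1 + a1 v) * (1 + a2 v) * (g1 v + g2 v) = 0)
    (k13 : ∀ v v', e v v' * ((1 + a1 v) * (1 + a2 v') * (g1 v + g2 v')) = 0) :
    ∑ v, (1 + a1 v) * (δ v + ∑ v', e v v' * (a1 v' * p1 v' v)) * g1 v =
      ∑ v, (1 + a2 v) * (δ v + ∑ v', e v v' * (a2 v' * p2 v' v)) * g2 v := by
  set L : T → T → ZMod 2 := fun v v' =>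
    e v v' * ((1 + a1 v) * g1 v * (a1 v' * p1 v' v) + (1 + a2 v) * g2 v * (a2 v' * p2 v' v)) with hL
  set R : T → T → ZMod 2 := fun v v' =>
    e v v' * (a1 v * (1 + a2 v) * g2 v * p1 v v' + a2 v * (1 + a1 v) * g1 v * p2 v v') with hR
  have hLR : ∑ v, ∑ v', (L v v' + R v v') = 0 := by
    refine sum_swap_zero _ ?_ ?_
    · intro v
      simp [hL, hR, he0]
    · intro v v'
      rcases zcases (e v v') with h0 | h1
      · have h0' : e v' v = 0 := by rw [← he]; exact h0
        simp [hL, hR, h0, h0']
      · have h1' : e v' v = 1 := by rw [← he]; exact h1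
        have c11 := h11 v v'
        have c22 := h22 v v'
        have c12 := h12 v v'
        have c12' := h12 v' v
        have c13 := h13 v v'
        have c13' := h13 v' v
        have d11 := k11 v v'
        have d22 := k22 v v'
        have d12 := k12 v
        have d12' := k12 v'
        have d13 := k13 v v'
        have d13' := k13 v' v
        rw [h1, one_mul] at c11 c22 c12 c13 d11 d22 d13
        rw [h1', one_mul] at c12' c13' d13'
        have := key2 (a1 v) (a1 v') (a2 v) (a2 v') (p1 v v') (p1 v' v) (p2 v v') (p2 v' v)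
          (g1 v) (g1 v') (g2 v) (g2 v') c11 c22 c12 c12' c13 c13' d11 d22 d12 d12' d13 d13'
        simp only [hL, hR, h1, h1', one_mul]
        linear_combination this
  have hRs : ∑ v, ∑ v', R v v' = ∑ v, (a1 v * (1 + a2 v) * g2 v * δ v + a2 v * (1 + a1 v) * g1 v * δ v) := by
    refine Finset.sum_congr rfl fun v _ => ?_
    have e1 : ∑ v', R v v' = (1 + a2 v) * g2 v * (a1 v * ∑ v', e v v' * p1 v v') +
        (1 + a1 v) * g1 v * (a2 v * ∑ v', e v v' * p2 v v') := by
      simp only [hR, Finset.mul_sum, ← Finset.sum_add_distrib]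
      refine Finset.sum_congr rfl fun v' _ => ?_
      ring
    rw [e1, s1, s2]
    ring
  have hLs : ∑ v, ∑ v', L v v' = ∑ v, ((1 + a1 v) * (∑ v', e v v' * (a1 v' * p1 v' v)) * g1 v +
      (1 + a2 v) * (∑ v', e v v' * (a2 v' * p2 v' v)) * g2 v) := by
    refine Finset.sum_congr rfl fun v _ => ?_
    simp only [hL, Finset.mul_sum, Finset.sum_mul, ← Finset.sum_add_distrib]
    refine Finset.sum_congr rfl fun v' _ => ?_
    ring
  have hadd : ∀ x y : ZMod 2, x + y = 0 → x = y := by decide
  apply hadd
  have hsum : ∑ v, ∑ v', (L v v' + R v v') = ∑ v, ∑ v', L v v' + ∑ v, ∑ v', R v v' := by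
    simp only [Finset.sum_add_distrib]
  rw [hsum, hLs, hRs, ← Finset.sum_add_distrib] at hLR
  have e2 : ∑ v, (1 + a1 v) * (δ v + ∑ v', e v v' * (a1 v' * p1 v' v)) * g1 v +
      ∑ v, (1 + a2 v) * (δ v + ∑ v', e v v' * (a2 v' * p2 v' v)) * g2 v =
      ∑ v, (((1 + a1 v) * (∑ v', e v v' * (a1 v' * p1 v' v)) * g1 v +
      (1 + a2 v) * (∑ v', e v v' * (a2 v' * p2 v' v)) * g2 v) +
      (a1 v * (1 + a2 v) * g2 v * δ v + a2 v * (1 + a1 v) * g1 v * δ v)) := by
    rw [← Finset.sum_add_distrib]
    refine Finset.sum_congr rfl fun v _ => ?_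
    have := k12 v
    have t : (a1 v * (1 + a2 v) * g2 v * δ v) + (a1 v * (1 + a2 v) * g2 v * δ v) = 0 := add_self' _
    have t' : (a2 v * (1 + a1 v) * g1 v * δ v) + (a2 v * (1 + a1 v) * g1 v * δ v) = 0 := add_self' _
    linear_combination δ v * this - t - t'
  rw [e2]
  exact hLR

end alg

theorem main : S_HEX := by
  intro F T _ _ GF GT hF hT A
  classical
  obtain ⟨r⟩ := hT.nonempty
  set a : F × T → ZMod 2 := fun p => if A p then 1 else 0 with ha
  have a1 : ∀ p, A p → a p = 1 := fun p hp => if_pos hp
  have a0 : ∀ p, ¬ A p → a p = 0 := fun p hp => if_neg hp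
  set rho : T → T → (F × T → ZMod 2) → (F × T → ZMod 2) := fun v v' f p =>
    a p * (((if p.2 = v then 1 else 0) + (if p.2 = v' then 1 else 0)) * f p) with hrho
  set R : Submodule (ZMod 2) (F × T → ZMod 2) := Submodule.span (ZMod 2)
    {g | ∃ v v' f, GT.Adj v v' ∧ LC GF GT A v v' f ∧ g = rho v v' f} with hR
  set t0 : F × T → ZMod 2 := fun p => a p * (if p.2 = r then 1 else 0) with ht0
  by_cases hmem : t0 ∈ R
  · -- second case
    right
    have hrep : ∀ g ∈ R, ∃ φ : T → T → F × T → ZMod 2, (∀ v v', φ v v' = φ v' v) ∧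
        (∀ v v', GT.Adj v v' → LC GF GT A v v' (φ v v')) ∧
        ∀ p, g p = a p * ∑ v', (if GT.Adj p.2 v' then 1 else 0) * φ p.2 v' p := by
      intro g hg
      induction hg using Submodule.span_induction with
      | mem g hg =>
        obtain ⟨v0, v0', f, hadj, hLC, rfl⟩ := hg
        have hne : v0 ≠ v0' := hadj.ne
        refine ⟨fun v v' => if (v = v0 ∧ v' = v0') ∨ (v = v0' ∧ v' = v0) then f else 0, ?_, ?_, ?_⟩
        · intro v v'
          have : ((v = v0 ∧ v' = v0') ∨ (v = v0' ∧ v' = v0)) ↔
              ((v' = v0 ∧ v = v0') ∨ (v' = v0' ∧ v = v0)) := by tauto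
          simp only [this]
        · intro v v' _
          by_cases hc : (v = v0 ∧ v' = v0') ∨ (v = v0' ∧ v' = v0)
          · simp only [if_pos hc]
            rcases hc with ⟨rfl, rfl⟩ | ⟨rfl, rfl⟩
            · exact hLC
            · intro p q hp hq
              exact hLC p q hp.symm hq.symm
          · simp only [if_neg hc]
            intro p q _ _ _ _ _
            rfl
        · intro p
          simp only [hrho]
          congr 1
          by_cases h1 : p.2 = v0
          · have h2 : p.2 ≠ v0' := fun h => hne (h1.symm.trans h)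
            rw [Finset.sum_eq_single v0']
            · simp [h1, hne, hadj]
            · intro v' _ hv'
              have : ¬ ((p.2 = v0 ∧ v' = v0') ∨ (p.2 = v0' ∧ v' = v0)) := by
                rintro (⟨_, h⟩ | ⟨h, _⟩)
                · exact hv' h
                · exact h2 h
              simp [this]
            · intro h; exact absurd (Finset.mem_univ _) h
          · by_cases h2 : p.2 = v0'
            · rw [Finset.sum_eq_single v0]
              · simp [h2, hne.symm, hadj.symm]
              · intro v' _ hv'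
                have : ¬ ((p.2 = v0 ∧ v' = v0') ∨ (p.2 = v0' ∧ v' = v0)) := by
                  rintro (⟨h, _⟩ | ⟨_, h⟩)
                  · exact h1 h
                  · exact hv' h
                simp [this]
              · intro h; exact absurd (Finset.mem_univ _) h
            · simp [h1, h2]
      | zero =>
        exact ⟨fun _ _ => 0, fun _ _ => rfl, fun _ _ _ _ _ _ _ _ _ _ => rfl, fun p => by simp⟩
      | add g g' _ _ ih ih' =>
        obtain ⟨φ, h1, h2, h3⟩ := ih
        obtain ⟨φ', h1', h2', h3'⟩ := ih'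
        refine ⟨fun v v' => φ v v' + φ' v v', ?_, ?_, ?_⟩
        · intro v v'; simp only [h1 v v', h1' v v']
        · intro v v' hadj p q hp hq hpq hAp hAq
          simp only [Pi.add_apply, h2 v v' hadj p q hp hq hpq hAp hAq,
            h2' v v' hadj p q hp hq hpq hAp hAq]
        · intro p
          simp only [Pi.add_apply, h3 p, h3' p, mul_add, Finset.sum_add_distrib]
      | smul c g _ ih =>
        obtain ⟨φ, h1, h2, h3⟩ := ih
        refine ⟨fun v v' => c • φ v v', ?_, ?_, ?_⟩
        · intro v v'; simp only [h1 v v']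
        · intro v v' hadj p q hp hq hpq hAp hAq
          simp only [Pi.smul_apply, h2 v v' hadj p q hp hq hpq hAp hAq]
        · intro p
          simp only [Pi.smul_apply, smul_eq_mul, h3 p, Finset.mul_sum]
          refine Finset.sum_congr rfl fun v' _ => ?_
          ring
    obtain ⟨φ, hsym, hLC, hφ⟩ := hrep t0 hmem
    set e : T → T → ZMod 2 := fun v v' => if GT.Adj v v' then 1 else 0 with he
    set δ : T → ZMod 2 := fun v => if v = r then 1 else 0 with hδ
    have hes : ∀ v v', e v v' = e v' v := fun v v' => by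
      simp only [he, GT.adj_comm]
    have he0 : ∀ v, e v v = 0 := fun v => by simp [he]
    -- (*)
    have hstar : ∀ u v, a (u, v) * ∑ v', e v v' * φ v v' (u, v) = a (u, v) * δ v := by
      intro u v
      have := hφ (u, v)
      simp only [ht0] at this
      exact this.symm
    -- local constancy in the multiplicative form
    have hloc : ∀ v v' (p q : F × T), (p.2 = v ∨ p.2 = v') → (q.2 = v ∨ q.2 = v') →
        RP GF GT p q → e v v' * (a p * a q * (φ v v' p + φ v v' q)) = 0 := by
      intro v v' p q hp hq hpq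
      by_cases hadj : GT.Adj v v'
      · by_cases hAp : A p
        · by_cases hAq : A q
          · rw [hLC v v' hadj p q hp hq hpq hAp hAq, add_self']
            ring
          · rw [a0 q hAq]; ring
        · rw [a0 p hAp]; ring
      · simp [he, hadj]
    refine ⟨fun u v => (1 + a (u, v)) * (δ v + ∑ v', e v v' * (a (u, v') * φ v' v (u, v'))), ?_, ?_, ?_⟩
    · intro u _ v hv
      have hv' : A (u, v) := not_not.1 hv
      simp only [a1 _ hv']
      have : (1 : ZMod 2) + 1 = 0 := by decide
      rw [this, zero_mul]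
    · intro u _
      have e1 : ∑ v, (1 + a (u, v)) * (δ v + ∑ v', e v v' * (a (u, v') * φ v' v (u, v'))) =
          ∑ v, (1 + a (u, v)) * δ v + ∑ v, ∑ v', e v v' * (a (u, v') * φ v' v (u, v')) +
          ∑ v, ∑ v', e v v' * (a (u, v) * a (u, v') * φ v' v (u, v')) := by
        simp only [← Finset.sum_add_distrib]
        refine Finset.sum_congr rfl fun v _ => ?_
        have : ∑ v', e v v' * (a (u, v) * a (u, v') * φ v' v (u, v')) =
            a (u, v) * ∑ v', e v v' * (a (u, v') * φ v' v (u, v')) := by
          rw [Finset.mul_sum]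
          refine Finset.sum_congr rfl fun v' _ => ?_
          ring
        rw [this]
        ring
      have e2 : ∑ v, ∑ v', e v v' * (a (u, v') * φ v' v (u, v')) = ∑ v, a (u, v) * δ v := by
        rw [Finset.sum_comm]
        refine Finset.sum_congr rfl fun v _ => ?_
        rw [← hstar u v, Finset.mul_sum]
        refine Finset.sum_congr rfl fun v' _ => ?_
        rw [hes v' v]
        ring
      have e3 : ∑ v, ∑ v', e v v' * (a (u, v) * a (u, v') * φ v' v (u, v')) = 0 := by
        refine sum_swap_zero _ (fun v => by rw [he0]; ring) (fun v v' => ?_)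
        have := hloc v v' (u, v) (u, v') (Or.inl rfl) (Or.inr rfl)
        rcases zcases (e v v') with h0 | h1
        · rw [h0, hes v' v, h0]; ring
        · have hadj : GT.Adj v v' := by
            by_contra hc
            simp [he, hc] at h1
          have := this ⟨Or.inl rfl, Or.inr hadj⟩
          rw [h1, one_mul] at this
          rw [h1, hes v' v, h1, hsym v' v]
          linear_combination this
      rw [e1, e2, e3, add_zero, ← Finset.sum_add_distrib]
      have : ∀ v, (1 + a (u, v)) * δ v + a (u, v) * δ v = δ v := by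
        intro v
        have := add_self' (a (u, v) * δ v)
        linear_combination this
      rw [Finset.sum_congr rfl (fun v _ => this v)]
      simp [hδ]
    · intro u _ u' _ huu' g hg
      have hg' : ∀ x y : T × F, (x.2 = u ∨ x.2 = u') → (y.2 = u ∨ y.2 = u') → RP GT GF x y →
          (1 + a (x.2, x.1)) * (1 + a (y.2, y.1)) * (g x + g y) = 0 := by
        intro x y hx hy hxy
        have t : (1 : ZMod 2) + 1 = 0 := by decide
        by_cases hAx : A (x.2, x.1)
        · rw [a1 _ hAx, t]; ring
        · by_cases hAy : A (y.2, y.1)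
          · rw [a1 _ hAy, t]; ring
          · rw [hg x y hx hy hxy hAx hAy, add_self']; ring
      have hmain := comp_alg e δ hes he0 (fun v => a (u, v)) (fun v => a (u', v))
        (fun v => g (v, u)) (fun v => g (v, u')) (fun v v' => φ v v' (u, v))
        (fun v v' => φ v v' (u', v)) (hstar u) (hstar u') ?_ ?_ ?_ ?_ ?_ ?_ ?_ ?_
      · exact hmain
      · intro v v'
        by_cases hadj : GT.Adj v v'
        · have := hloc v v' (u, v) (u, v') (Or.inl rfl) (Or.inr rfl) ⟨Or.inl rfl, Or.inr hadj⟩
          rw [hsym v' v]; exact this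
        · simp [he, hadj]
      · intro v v'
        by_cases hadj : GT.Adj v v'
        · have := hloc v v' (u', v) (u', v') (Or.inl rfl) (Or.inr rfl) ⟨Or.inl rfl, Or.inr hadj⟩
          rw [hsym v' v]; exact this
        · simp [he, hadj]
      · intro v v'
        exact hloc v v' (u, v) (u', v) (Or.inl rfl) (Or.inl rfl) ⟨Or.inr huu', Or.inl rfl⟩
      · intro v v'
        by_cases hadj : GT.Adj v v'
        · have := hloc v v' (u, v) (u', v') (Or.inl rfl) (Or.inr rfl) ⟨Or.inr huu', Or.inr hadj⟩
          rw [hsym v' v]; exact this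
        · simp [he, hadj]
      · intro v v'
        by_cases hadj : GT.Adj v v'
        · have := hg' (v, u) (v', u) (Or.inl rfl) (Or.inl rfl) ⟨Or.inr hadj, Or.inl rfl⟩
          simp only at this
          rw [this, mul_zero]
        · simp [he, hadj]
      · intro v v'
        by_cases hadj : GT.Adj v v'
        · have := hg' (v, u') (v', u') (Or.inr rfl) (Or.inr rfl) ⟨Or.inr hadj, Or.inl rfl⟩
          simp only at this
          rw [this, mul_zero]
        · simp [he, hadj]
      · intro v
        exact hg' (v, u) (v, u') (Or.inl rfl) (Or.inr rfl) ⟨Or.inl rfl, Or.inr huu'⟩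
      · intro v v'
        by_cases hadj : GT.Adj v v'
        · have := hg' (v, u) (v', u') (Or.inl rfl) (Or.inr rfl) ⟨Or.inr hadj, Or.inr huu'⟩
          simp only at this
          rw [this, mul_zero]
        · simp [he, hadj]
  · -- first case
    left
    obtain ⟨ψ, hψ1, hψ2⟩ := Submodule.exists_le_ker_of_notMem hmem
    set z : F × T → ZMod 2 := fun p => ψ (Pi.single p 1) with hz
    have hψ : ∀ g : F × T → ZMod 2, ψ g = ∑ p, g p * z p := by
      intro g
      conv_lhs => rw [← Finset.univ_sum_single g]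
      rw [map_sum]
      refine Finset.sum_congr rfl fun p _ => ?_
      have : (Pi.single p (g p) : F × T → ZMod 2) = g p • Pi.single p (1 : ZMod 2) := by
        rw [← Pi.single_smul, smul_eq_mul, mul_one]
      rw [this, map_smul, smul_eq_mul]
    have hcomp : ∀ v v' : T, GT.Adj v v' → ∀ f : F × T → ZMod 2, LC GF GT A v v' f →
        ∑ u, (a (u, v) * z (u, v)) * f (u, v) = ∑ u, (a (u, v') * z (u, v')) * f (u, v') := by
      intro v v' hadj f hf
      have hin : rho v v' f ∈ R := Submodule.subset_span ⟨v, v', f, hadj, hf, rfl⟩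
      have h0 : ψ (rho v v' f) = 0 := hψ2 hin
      rw [hψ, Fintype.sum_prod_type_right] at h0
      apply eq_of_add
      have e1 : ∀ w : T, ∑ u : F, rho v v' f (u, w) * z (u, w) =
          (if w = v then 1 else 0) * ∑ u, a (u, w) * z (u, w) * f (u, w) +
          (if w = v' then 1 else 0) * ∑ u, a (u, w) * z (u, w) * f (u, w) := by
        intro w
        rw [← add_mul, Finset.mul_sum]
        refine Finset.sum_congr rfl fun u _ => ?_
        simp only [hrho]
        ring
      simp only [e1, Finset.sum_add_distrib, ite_mul, one_mul, zero_mul, Finset.sum_ite_eq',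
        Finset.mem_univ, if_true] at h0
      exact h0
    have hr : ∑ u, a (u, r) * z (u, r) = 1 := by
      have h1 : ψ t0 = 1 := (zcases _).resolve_left hψ1
      rw [hψ, Fintype.sum_prod_type_right] at h1
      rw [← h1]
      have e1 : ∀ w : T, ∑ u : F, t0 (u, w) * z (u, w) =
          (if w = r then 1 else 0) * ∑ u, a (u, w) * z (u, w) := by
        intro w
        rw [Finset.mul_sum]
        refine Finset.sum_congr rfl fun u _ => ?_
        simp only [ht0]
        ring
      simp only [e1, ite_mul, one_mul, zero_mul, Finset.sum_ite_eq', Finset.mem_univ, if_true]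
    have hone : ∀ v v' : T, GT.Adj v v' →
        ∑ u, a (u, v) * z (u, v) = ∑ u, a (u, v') * z (u, v') := by
      intro v v' hadj
      have := hcomp v v' hadj (fun _ => 1) (fun _ _ _ _ _ _ _ => rfl)
      simpa using this
    refine ⟨fun v u => a (u, v) * z (u, v), ?_, ?_, ?_⟩
    · intro v _ u hu
      simp only [a0 _ hu, zero_mul]
    · intro v _
      obtain ⟨w⟩ := hT.preconnected v r
      have hw : ∀ (x y : T), GT.Walk x y →
          ∑ u, a (u, x) * z (u, x) = ∑ u, a (u, y) * z (u, y) := by
        intro x y w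
        induction w with
        | nil => rfl
        | cons hadj _ ih => rw [hone _ _ hadj, ih]
      exact (hw v r w).trans hr
    · intro v _ v' _ hadj f hf
      exact hcomp v v' hadj f hf

end Pool.Agent.W112.SN
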